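import Pool.Agent.TH109.CG3.Rank

/-!
Second order rigidity of the bi-invariant metric of every compact matrix group of rank at least two.
-/

open scoped Matrix.Norms.Frobenius Topology
open Matrix Filter Module Pool.Agent.H842R4 Pool.Agent.H842R4.Calc
open Pool.Agent.TH109.CG Pool.Agent.TH109.CG2

noncomputable section

namespace Pool.Agent.TH109.CG3

variable {N : ℕ}

/-- closed elements span the Lie algebra -/
theorem mem_span_closed (G : CGroup N) (A : lieAlg G) :
    A ∈ Submodule.span ℝ {C : lieAlg G | NormedSpace.exp ((2 * Real.pi) • (C : Mat N)) = 1} := by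
  obtain ⟨r, C, b, h1, h2, h3, -⟩ := exists_closed G A.2
  have h4 : A = ∑ j, b j • (⟨C j, h2 j⟩ : lieAlg G) := by
    apply Subtype.ext
    rw [h1]
    push_cast
    rfl
  rw [h4]
  exact Submodule.sum_mem _ fun j _ => Submodule.smul_mem _ _ (Submodule.subset_span (h3 j))

theorem exists_closed_ne (G : CGroup N) (A : lieAlg G) (hA : A ≠ 0) :
    ∃ C : lieAlg G, NormedSpace.exp ((2 * Real.pi) • (C : Mat N)) = 1 ∧ C ≠ 0 := by
  by_contra hcon
  push Not at hcon
  have h1 := mem_span_closed G A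
  have h2 : {C : lieAlg G | NormedSpace.exp ((2 * Real.pi) • (C : Mat N)) = 1} ⊆ {0} :=
    fun C hC => hcon C hC
  have h3 := Submodule.span_mono h2 h1
  rw [Submodule.span_zero_singleton, Submodule.mem_bot] at h3
  exact hA h3

/-- existence of a closed 2-torus with good weights -/
def HasGood (G : CGroup N) : Prop :=
  ∃ X Y : lieAlg G, LinearIndependent ℝ ![X, Y] ∧ brk X Y = 0 ∧
    NormedSpace.exp ((2 * Real.pi) • (X : Mat N)) = 1 ∧
    NormedSpace.exp ((2 * Real.pi) • (Y : Mat N)) = 1 ∧ GoodWeights X Y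

/-- the abelian case -/
theorem good_abelian (G : CGroup N) (A0 B0 : lieAlg G) (ind : LinearIndependent ℝ ![A0, B0])
    (hab : ∀ A B : lieAlg G, brk A B = 0) : HasGood G := by
  have hA0 : A0 ≠ 0 := by
    rintro rfl
    have := (LinearIndependent.pair_iff.1 ind 1 0 (by simp)).1
    exact one_ne_zero this
  obtain ⟨X, hX, hX0⟩ := exists_closed_ne G A0 hA0
  have hY : ∃ Y : lieAlg G, NormedSpace.exp ((2 * Real.pi) • (Y : Mat N)) = 1 ∧
      Y ∉ Submodule.span ℝ {X} := by
    by_contra hcon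
    push Not at hcon
    have h1 : ∀ A : lieAlg G, A ∈ Submodule.span ℝ {X} := fun A =>
      (Submodule.span_le.2 fun C hC => hcon C hC) (mem_span_closed G A)
    obtain ⟨a, ha⟩ := Submodule.mem_span_singleton.1 (h1 A0)
    obtain ⟨b, hb⟩ := Submodule.mem_span_singleton.1 (h1 B0)
    have h2 := LinearIndependent.pair_iff.1 ind b (-a) (by
      rw [← ha, ← hb, smul_smul, smul_smul]
      module)
    have h3 : a = 0 := neg_eq_zero.1 h2.2
    rw [h3, zero_smul] at ha
    exact hA0 ha.symm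
  obtain ⟨Y, hYc, hY⟩ := hY
  have ind' : LinearIndependent ℝ ![X, Y] := by
    rw [LinearIndependent.pair_iff' hX0]
    intro a ha
    exact hY (Submodule.mem_span_singleton.2 ⟨a, ha⟩)
  refine ⟨X, Y, ind', hab X Y, hX, hYc, ?_⟩
  intro m n A B hA h1 h2 h3 h4
  left
  rw [hab] at h2 h4
  constructor
  · have := (smul_eq_zero.1 (neg_eq_zero.1 h2.symm)).resolve_right hA
    exact_mod_cast this
  · have := (smul_eq_zero.1 (neg_eq_zero.1 h4.symm)).resolve_right hA
    exact_mod_cast this

/-- two commuting independent elements give an element orthogonal to a given one -/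
theorem exists_orth {𝔤 : Type} [NormedAddCommGroup 𝔤] [InnerProductSpace ℝ 𝔤]
    {T : Submodule ℝ 𝔤} {A0 B0 X : 𝔤} (hA : A0 ∈ T) (hB : B0 ∈ T)
    (ind : LinearIndependent ℝ ![A0, B0]) (hX : X ∈ T) (hX0 : X ≠ 0) :
    ∃ H ∈ T, H ≠ 0 ∧ inner ℝ H X = (0 : ℝ) := by
  have hXX : (inner ℝ X X : ℝ) ≠ 0 := inner_self_ne_zero.2 hX0
  have h1 : ∀ A ∈ T, (inner ℝ X X • A - inner ℝ A X • X : 𝔤) ∈ T ∧
      inner ℝ (inner ℝ X X • A - inner ℝ A X • X : 𝔤) X = (0 : ℝ) := by
    intro A hA
    refine ⟨T.sub_mem (T.smul_mem _ hA) (T.smul_mem _ hX), ?_⟩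
    rw [inner_sub_left, real_inner_smul_left, real_inner_smul_left]
    ring
  by_cases h2 : (inner ℝ X X • A0 - inner ℝ A0 X • X : 𝔤) = 0
  · by_cases h3 : (inner ℝ X X • B0 - inner ℝ B0 X • X : 𝔤) = 0
    · exfalso
      have h4 := LinearIndependent.pair_iff.1 ind (inner ℝ B0 X * inner ℝ X X)
        (-(inner ℝ A0 X * inner ℝ X X)) (by
          rw [mul_smul, neg_smul, mul_smul, sub_eq_zero.1 h2, sub_eq_zero.1 h3, smul_smul,
            smul_smul, mul_comm]
          exact add_neg_cancel _)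
      have h5 : (inner ℝ A0 X : ℝ) = 0 :=
        (mul_eq_zero.1 (neg_eq_zero.1 h4.2)).resolve_right hXX
      rw [h5, zero_smul, sub_zero] at h2
      have h6 : A0 = 0 := (smul_eq_zero.1 h2).resolve_left hXX
      have := (LinearIndependent.pair_iff.1 ind 1 0 (by simp [h6])).1
      exact one_ne_zero this
    · exact ⟨_, (h1 B0 hB).1, h3, (h1 B0 hB).2⟩
  · exact ⟨_, (h1 A0 hA).1, h2, (h1 A0 hA).2⟩

/-- If the Lie algebra of the compact matrix group `G` contains two commuting linearly independent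
elements, then `G` contains a closed 2-torus with good weights. -/
theorem exists_good (G : CGroup N) (A0 B0 : lieAlg G) (ind : LinearIndependent ℝ ![A0, B0])
    (h0 : brk A0 B0 = 0) : HasGood G := by
  by_cases hne : ∃ A B : lieAlg G, (gCalc G).br A B ≠ 0
  swap
  · push Not at hne
    exact good_abelian G A0 B0 ind hne
  have hA0s : A0 ∈ Submodule.span ℝ {A0, B0} := Submodule.subset_span (by simp)
  have hB0s : B0 ∈ Submodule.span ℝ {A0, B0} := Submodule.subset_span (by simp)
  have h0' : (gCalc G).br A0 B0 = 0 := h0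
  have h0'' : (gCalc G).br B0 A0 = 0 := by rw [(gCalc G).br_anti, h0', neg_zero]
  obtain ⟨T, hle, hT⟩ := exists_maxAb (gCalc G) (Submodule.span ℝ {A0, B0}) (by
    intro H hH H' hH'
    obtain ⟨a, b, rfl⟩ := Submodule.mem_span_pair.1 hH
    obtain ⟨a', b', rfl⟩ := Submodule.mem_span_pair.1 hH'
    simp only [map_add, LinearMap.add_apply, map_smul, LinearMap.smul_apply, h0', h0'',
      (gCalc G).br_self, smul_zero, add_zero])
  obtain ⟨X, e2, e3, hR, hS⟩ := exists_short_group G hT hne
  obtain ⟨H, hH, hH0, hHX⟩ := exists_orth (hle hA0s) (hle hB0s) ind hR.mem hR.ne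
  obtain ⟨H2, H3⟩ := hR.rt H hH hHX
  set C : CGroup N := cen G e2 e3 with hC
  -- the inclusion
  let inc : lieAlg C → lieAlg G := fun A => ⟨A, (mem_cen_lie.1 A.2).1⟩
  have inc2 : ∀ A : lieAlg C, (gCalc G).br (inc A) e2 = 0 := fun A => by
    have h1 : brk e2 (inc A) = 0 := (brk_eq_zero_iff e2 (inc A)).2 (mem_cen_lie.1 A.2).2.1
    have h2 : (gCalc G).br e2 (inc A) = 0 := h1
    rw [(gCalc G).br_anti, h2, neg_zero]
  have inc3 : ∀ A : lieAlg C, (gCalc G).br (inc A) e3 = 0 := fun A => by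
    have h1 : brk e3 (inc A) = 0 := (brk_eq_zero_iff e3 (inc A)).2 (mem_cen_lie.1 A.2).2.2
    have h2 : (gCalc G).br e3 (inc A) = 0 := h1
    rw [(gCalc G).br_anti, h2, neg_zero]
  have ofz : ∀ A : lieAlg G, (gCalc G).br A e2 = 0 → (gCalc G).br A e3 = 0 →
      ∃ A' : lieAlg C, inc A' = A := by
    intro A h1 h2
    have h1' : brk e2 A = 0 := by
      have : (gCalc G).br e2 A = 0 := by rw [(gCalc G).br_anti, h1, neg_zero]
      exact this
    have h2' : brk e3 A = 0 := by
      have : (gCalc G).br e3 A = 0 := by rw [(gCalc G).br_anti, h2, neg_zero]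
      exact this
    exact ⟨⟨A, mem_cen_lie.2 ⟨A.2, (brk_eq_zero_iff e2 A).1 h1', (brk_eq_zero_iff e3 A).1 h2'⟩⟩,
      rfl⟩
  -- independence
  have indY : ∀ Y : lieAlg C, Y ≠ 0 → LinearIndependent ℝ ![X, inc Y] := by
    intro Y hY
    have hY0 : inc Y ≠ 0 := by
      intro h
      exact hY (Subtype.ext (congrArg (fun v : lieAlg G => (v : Mat N)) h))
    rw [LinearIndependent.pair_iff]
    intro s t hst
    have he3 : e3 ≠ 0 := by
      intro h
      have h1 : ‖e3‖ = ‖X‖ := by rw [hR.tri.cyc.norm_eq, hR.tri.norm_eq]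
      rw [h, norm_zero] at h1
      exact hR.ne (norm_eq_zero.1 h1.symm)
    have h1 := congrArg (fun v => (gCalc G).br v e2) hst
    simp only [map_add, LinearMap.add_apply, map_smul, LinearMap.smul_apply, inc2, smul_zero,
      add_zero, map_zero, LinearMap.zero_apply, hR.tri.h12] at h1
    have h2 : s = 0 := (smul_eq_zero.1 h1).resolve_right (smul_ne_zero two_ne_zero he3)
    rw [h2, zero_smul, zero_add] at hst
    exact ⟨h2, (smul_eq_zero.1 hst).resolve_right hY0⟩
  have comY : ∀ Y : lieAlg C, brk X (inc Y) = 0 := by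
    intro Y
    have h1 := tri_cen hR.tri (inc2 Y) (inc3 Y)
    have h2 : (gCalc G).br X (inc Y) = 0 := by rw [(gCalc G).br_anti, h1, neg_zero]
    exact h2
  -- conclusion from a good element of the centraliser
  have fin : ∀ Y : lieAlg C, Y ≠ 0 → NormedSpace.exp ((2 * Real.pi) • (Y : Mat N)) = 1 →
      (∀ (n : ℤ) (A B : lieAlg C), A ≠ 0 → brk Y A = (n : ℝ) • B → brk Y B = -((n : ℝ) • A) →
        n = 0 ∨ n = 1 ∨ n = -1 ∨ ((n = 2 ∨ n = -2) ∧ ∃ c : ℝ, brk A B = c • Y)) →
      HasGood G := by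
    intro Y hY0 hYc hY
    have hg : GoodW (gCalc G) X (inc Y) := by
      refine good_of_short hR.ne hS hR.tri (inc2 Y) (inc3 Y) ?_
      intro n A B hA a2 a3 b2 b3 h1 h2
      obtain ⟨A', rfl⟩ := ofz A a2 a3
      obtain ⟨B', rfl⟩ := ofz B b2 b3
      have hA' : A' ≠ 0 := by
        rintro rfl
        exact hA rfl
      have h1' : brk Y A' = (n : ℝ) • B' := by
        apply Subtype.ext
        have := congrArg (fun v : lieAlg G => (v : Mat N)) h1
        exact this
      have h2' : brk Y B' = -((n : ℝ) • A') := by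
        apply Subtype.ext
        have := congrArg (fun v : lieAlg G => (v : Mat N)) h2
        exact this
      rcases hY n A' B' hA' h1' h2' with h | h | h | ⟨h, c, hc⟩
      · exact Or.inl h
      · exact Or.inr (Or.inl h)
      · exact Or.inr (Or.inr (Or.inl h))
      · refine Or.inr (Or.inr (Or.inr ⟨h, c, ?_⟩))
        apply Subtype.ext
        have := congrArg (fun v : lieAlg C => (v : Mat N)) hc
        exact this
    refine ⟨X, inc Y, indY Y hY0, comY Y, tri_closed G hR.tri, hYc, ?_⟩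
    intro m n A B hA h1 h2 h3 h4
    exact hg m n A B hA ⟨h1, h2, h3, h4⟩
  by_cases hCne : ∃ A B : lieAlg C, (gCalc C).br A B ≠ 0
  · obtain ⟨T', -, hT'⟩ := exists_maxAb (gCalc C) ⊥ (by
      intro H hH H' _
      rw [(Submodule.mem_bot ℝ).1 hH, map_zero, LinearMap.zero_apply])
    obtain ⟨Y, f2, f3, hR', hS'⟩ := exists_short_group C hT' hCne
    refine fin Y hR'.ne (tri_closed C hR'.tri) ?_
    intro n A B hA h1 h2
    obtain ⟨hn1, hn2⟩ := hS'.le n A B hA h1 h2
    have hcases : n = -2 ∨ n = -1 ∨ n = 0 ∨ n = 1 ∨ n = 2 := by omega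
    rcases hcases with rfl | rfl | rfl | rfl | rfl
    · refine Or.inr (Or.inr (Or.inr ⟨Or.inr rfl, ?_⟩))
      have h1' : (gCalc C).br Y A = ((-2 : ℤ) : ℝ) • B := h1
      have h2' : (gCalc C).br Y B = -(((-2 : ℤ) : ℝ) • A) := h2
      obtain ⟨c, hc⟩ := hS'.cor A (-B) (by rw [h1']; push_cast; module)
        (by rw [map_neg, h2']; push_cast; module)
      refine ⟨-c, ?_⟩
      have h3 : (gCalc C).br A B = (-c) • Y := by
        rw [map_neg] at hc
        have h4 : (-c) • Y = -(c • Y) := neg_smul c Y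
        rw [h4, ← hc, neg_neg]
      exact h3
    · exact Or.inr (Or.inr (Or.inl rfl))
    · exact Or.inl rfl
    · exact Or.inr (Or.inl rfl)
    · refine Or.inr (Or.inr (Or.inr ⟨Or.inl rfl, ?_⟩))
      have h1' : (gCalc C).br Y A = ((2 : ℤ) : ℝ) • B := h1
      have h2' : (gCalc C).br Y B = -(((2 : ℤ) : ℝ) • A) := h2
      obtain ⟨c, hc⟩ := hS'.cor A B (by rw [h1']; push_cast; module)
        (by rw [h2']; push_cast; module)
      exact ⟨c, hc⟩
  · push Not at hCne
    obtain ⟨H', hH'⟩ := ofz H H2 H3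
    have hH'0 : H' ≠ 0 := by
      rintro rfl
      apply hH0
      rw [← hH']
      rfl
    obtain ⟨Y, hYc, hY0⟩ := exists_closed_ne C H' hH'0
    refine fin Y hY0 hYc ?_
    intro n A B hA h1 h2
    left
    have h3 : brk Y B = 0 := hCne Y B
    rw [h3] at h2
    have := (smul_eq_zero.1 (neg_eq_zero.1 h2.symm)).resolve_right hA
    exact_mod_cast this

/-- **Second order rigidity in rank at least two.** If the Lie algebra of the compact matrix group
`G` contains two commuting linearly independent elements, then the bi-invariant metric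
`- Re tr (A B)` of `G` is rigid to second order. -/
theorem rank2 (G : CGroup N) (A0 B0 : lieAlg G) (ind : LinearIndependent ℝ ![A0, B0])
    (h0 : brk A0 B0 = 0) : SecondOrderRigid G := by
  obtain ⟨X, Y, h1, h2, h3, h4, h5⟩ := exists_good G A0 B0 ind h0
  exact main2 G X Y h1 h2 h3 h4 h5

end Pool.Agent.TH109.CG3
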