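import Pool.Agent.TH109.CG3.Root

/-!
Second order rigidity of the bi-invariant metric of every compact matrix group of rank at least two.
-/

open scoped Matrix.Norms.Frobenius Topology
open Matrix Filter Module Pool.Agent.H842R4 Pool.Agent.H842R4.Calc
open Pool.Agent.TH109.CG Pool.Agent.TH109.CG2

noncomputable section

namespace Pool.Agent.TH109.CG3

section abstract

variable {P 𝔤 : Type} [NormedAddCommGroup 𝔤] [InnerProductSpace ℝ 𝔤] {K : Calc P 𝔤}

/-- multiplicity one -/
theorem mult_one1 {X A J C C' : 𝔤} (h : Short K X) (hA0 : A ≠ 0)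
    (a1 : K.br X A = (2 : ℝ) • J) (a2 : K.br X J = -((2 : ℝ) • A))
    (c1 : K.br X C = (2 : ℝ) • C') (c2 : K.br X C' = -((2 : ℝ) • C))
    (o1 : inner ℝ C A = (0 : ℝ)) (o2 : inner ℝ C J = (0 : ℝ)) : C = 0 := by
  have hX : X ≠ 0 := by
    rintro rfl
    rw [map_zero, LinearMap.zero_apply] at a2
    have := neg_eq_zero.1 a2.symm
    exact hA0 ((smul_eq_zero.1 this).resolve_left two_ne_zero)
  have hXX : (inner ℝ X X : ℝ) ≠ 0 := inner_self_ne_zero.2 hX
  have wt_inner : ∀ A D D' : 𝔤, K.br X D' = -((2 : ℝ) • D) →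
      inner ℝ (K.br A D') X = 2 * (inner ℝ A D : ℝ) := by
    intro A D D' hD
    rw [K.ad_inv, K.br_anti D' X, hD, neg_neg, real_inner_smul_right]
  obtain ⟨c, hc⟩ := h.cor A J a1 a2
  have hc0 : c ≠ 0 := by
    rintro rfl
    have h1 := wt_inner A A J a2
    rw [hc, zero_smul, inner_zero_left] at h1
    have h2 : (inner ℝ A A : ℝ) ≠ 0 := inner_self_ne_zero.2 hA0
    apply h2
    linarith
  have pol : ∀ D D' : 𝔤, K.br X D = (2 : ℝ) • D' → K.br X D' = -((2 : ℝ) • D) →
      inner ℝ A D = (0 : ℝ) → K.br A D' + K.br D J = 0 := by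
    intro D D' d1 d2 oD
    obtain ⟨k1, h1⟩ := h.cor (A + D) (J + D') (by rw [map_add, a1, d1, smul_add])
      (by rw [map_add, a2, d2, smul_add, neg_add])
    obtain ⟨k2, h2⟩ := h.cor D D' d1 d2
    have h3 : K.br A D' + K.br D J = (k1 - c - k2) • X := by
      have h4 : K.br (A + D) (J + D') = K.br A J + K.br D D' + (K.br A D' + K.br D J) := by
        simp only [map_add, LinearMap.add_apply]
        abel
      rw [h1, hc, h2] at h4
      rw [sub_smul, sub_smul, h4]
      abel
    have h5 : inner ℝ (K.br A D' + K.br D J) X = (0 : ℝ) := by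
      rw [inner_add_left, wt_inner A D D' d2, wt_inner D A J a2, real_inner_comm A D, oD]
      ring
    rw [h3, real_inner_smul_left] at h5
    rw [h3, (mul_eq_zero.1 h5).resolve_right hXX, zero_smul]
  have oAC : inner ℝ A C = (0 : ℝ) := by rw [real_inner_comm]; exact o1
  have oAC' : inner ℝ A C' = (0 : ℝ) := by
    have h1 : inner ℝ A ((2 : ℝ) • C') = (0 : ℝ) := by
      have h2 := br_skew K X A C
      rw [a1, real_inner_smul_left, real_inner_comm C J, o2] at h2
      rw [← c1]
      linarith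
    rw [real_inner_smul_right] at h1
    linarith
  have e1 := pol C C' c1 c2 oAC
  have e2 := pol C' (-C) (by rw [c2, smul_neg]) (by rw [map_neg, c1]) oAC'
  rw [map_neg] at e2
  have e1' : K.br J C = K.br A C' := by
    rw [K.br_anti J C]
    exact (eq_neg_of_add_eq_zero_left e1).symm
  have e2' : K.br J C' = - K.br A C := by
    rw [K.br_anti J C']
    congr 1
    exact (neg_add_eq_zero.1 e2).symm
  have w1 : K.br X (K.br A C) = ((4 : ℤ) : ℝ) • K.br A C' := by
    rw [K.jac, a1, c1, map_smul, map_smul, LinearMap.smul_apply, e1']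
    push_cast
    module
  have w2 : K.br X (K.br A C') = -(((4 : ℤ) : ℝ) • K.br A C) := by
    rw [K.jac, a1, c2, map_smul, map_neg, map_smul, LinearMap.smul_apply, e2']
    push_cast
    module
  have hP : K.br A C = 0 := by
    by_contra hne
    have := (h.le 4 _ _ hne w1 w2).2
    norm_num at this
  have hQ : K.br A C' = 0 := by
    rw [hP, map_zero] at w1
    push_cast at w1
    exact (smul_eq_zero.1 w1.symm).resolve_left (by norm_num)
  have hJC : K.br C J = 0 := by
    rw [hQ, zero_add] at e1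
    exact e1
  have hCA : K.br C A = 0 := by rw [K.br_anti, hP, neg_zero]
  have h6 : K.br C (K.br A J) = 0 := by
    rw [K.jac, hCA, hJC]
    simp
  rw [hc, map_smul] at h6
  have h7 : K.br C X = 0 := (smul_eq_zero.1 h6).resolve_left hc0
  have h8 : K.br X C = 0 := by rw [K.br_anti, h7, neg_zero]
  have h9 : C' = 0 := by
    rw [h8] at c1
    exact (smul_eq_zero.1 c1.symm).resolve_left (by norm_num)
  rw [h9, map_zero] at c2
  have h11 := neg_eq_zero.1 c2.symm
  exact (smul_eq_zero.1 h11).resolve_left (by norm_num)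

/-- elements commuting with `e2`, `e3` commute with `e1` -/
theorem tri_cen {e1 e2 e3 Y : 𝔤} (ht : Tri K e1 e2 e3) (y2 : K.br Y e2 = 0) (y3 : K.br Y e3 = 0) :
    K.br Y e1 = 0 := by
  have h1 : K.br Y (K.br e2 e3) = 0 := by
    rw [K.jac, y2, y3, map_zero, LinearMap.zero_apply, map_zero, add_zero]
  rw [ht.h23, map_smul] at h1
  exact (smul_eq_zero.1 h1).resolve_left two_ne_zero

/-- the weights of the torus generated by a short coroot and an element of the centraliser -/
theorem good_of_short {X e2 e3 Y : 𝔤} (hX0 : X ≠ 0) (h : Short K X) (ht : Tri K X e2 e3)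
    (y2 : K.br Y e2 = 0) (y3 : K.br Y e3 = 0)
    (hY : ∀ (n : ℤ) (A B : 𝔤), A ≠ 0 → K.br A e2 = 0 → K.br A e3 = 0 → K.br B e2 = 0 →
      K.br B e3 = 0 → K.br Y A = (n : ℝ) • B → K.br Y B = -((n : ℝ) • A) →
      n = 0 ∨ n = 1 ∨ n = -1 ∨ ((n = 2 ∨ n = -2) ∧ ∃ c : ℝ, K.br A B = c • Y)) :
    GoodW K X Y := by
  have hn2 : ‖e2‖ = ‖X‖ := ht.norm_eq
  have hn3 : ‖e3‖ = ‖X‖ := by rw [ht.cyc.norm_eq, hn2]
  have hXn : ‖X‖ ≠ 0 := norm_ne_zero_iff.2 hX0
  have he2 : e2 ≠ 0 := by
    intro h0
    rw [h0, norm_zero] at hn2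
    exact hXn hn2.symm
  have i22 : (inner ℝ e2 e2 : ℝ) = ‖X‖ ^ 2 := by rw [real_inner_self_eq_norm_sq, hn2]
  have i33 : (inner ℝ e3 e3 : ℝ) = ‖X‖ ^ 2 := by rw [real_inner_self_eq_norm_sq, hn3]
  have i23 : (inner ℝ e2 e3 : ℝ) = 0 := ht.inner12
  have i32 : (inner ℝ e3 e2 : ℝ) = 0 := by rw [real_inner_comm]; exact i23
  have X3 : K.br X e3 = -((2 : ℝ) • e2) := by rw [K.br_anti, ht.h31]
  have yX : K.br Y X = 0 := tri_cen ht y2 y3
  -- weight two vectors
  have two : ∀ A B : 𝔤, K.br X A = (2 : ℝ) • B → K.br X B = -((2 : ℝ) • A) → K.br Y A = 0 := by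
    intro A B h1 h2
    set a : ℝ := inner ℝ A e2 / ‖X‖ ^ 2 with ha
    set b : ℝ := inner ℝ A e3 / ‖X‖ ^ 2 with hb
    have h3 := mult_one1 (C := A - a • e2 - b • e3) (C' := B - a • e3 + b • e2) h he2 ht.h12 X3
      (by rw [map_sub, map_sub, map_smul, map_smul, h1, ht.h12, X3]; module)
      (by rw [map_add, map_sub, map_smul, map_smul, h2, ht.h12, X3]; module)
      (by
        rw [inner_sub_left, inner_sub_left, real_inner_smul_left, real_inner_smul_left, i22, i32, ha]
        field_simp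
        ring)
      (by
        rw [inner_sub_left, inner_sub_left, real_inner_smul_left, real_inner_smul_left, i33, i23, hb]
        field_simp
        ring)
    have h4 : A = a • e2 + b • e3 := by
      rw [sub_sub] at h3
      exact sub_eq_zero.1 h3
    rw [h4, map_add, map_smul, map_smul, y2, y3, smul_zero, smul_zero, add_zero]
  intro m n A B hA hw
  obtain ⟨w1, w2, w3, w4⟩ := hw
  obtain ⟨hm1, hm2⟩ := h.le m A B hA w1 w2
  have hcases : m = -2 ∨ m = -1 ∨ m = 0 ∨ m = 1 ∨ m = 2 := by omega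
  rcases hcases with rfl | rfl | rfl | rfl | rfl
  · -- `m = -2`
    have b1 : K.br X A = (2 : ℝ) • (-B) := by rw [w1]; push_cast; module
    have b2 : K.br X (-B) = -((2 : ℝ) • A) := by rw [map_neg, w2]; push_cast; module
    have hYA := two A (-B) b1 b2
    have hB : B ≠ 0 := by
      rintro rfl
      rw [map_zero] at w2
      have := neg_eq_zero.1 w2.symm
      exact hA ((smul_eq_zero.1 this).resolve_left (by norm_num))
    rw [hYA] at w3
    have hn : n = 0 := by exact_mod_cast (smul_eq_zero.1 w3.symm).resolve_right hB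
    obtain ⟨c, hc⟩ := h.cor A (-B) b1 b2
    refine Or.inr (Or.inr (Or.inl ⟨hn, Or.inr rfl, -c, ?_⟩))
    rw [map_neg] at hc
    rw [neg_smul, ← hc, neg_neg]
  · exact Or.inr (Or.inl ⟨-1, 0, by ring⟩)
  · -- `m = 0`
    rw [Int.cast_zero, zero_smul] at w1 w2
    rw [neg_zero] at w2
    by_cases hn : n = 0
    · exact Or.inl ⟨rfl, hn⟩
    have hn' : (n : ℝ) ≠ 0 := by exact_mod_cast hn
    -- elements of the centraliser of `X` in a nonzero weight space of `Y`
    have zz : ∀ A B : 𝔤, K.br X A = 0 → K.br Y B = -((n : ℝ) • A) →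
        K.br A e2 = 0 ∧ K.br A e3 = 0 := by
      intro A B w1 w4
      have hAX : inner ℝ A X = (0 : ℝ) := by
        have h1 := br_skew K Y B X
        rw [yX, inner_zero_right, neg_zero, w4, inner_neg_left, real_inner_smul_left] at h1
        exact (mul_eq_zero.1 (neg_eq_zero.1 h1)).resolve_left hn'
      have c1 : K.br X (K.br e2 A) = (2 : ℝ) • K.br e3 A := by
        rw [K.jac, ht.h12, w1, map_zero, add_zero, map_smul, LinearMap.smul_apply]
      have c2 : K.br X (K.br e3 A) = -((2 : ℝ) • K.br e2 A) := by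
        rw [K.jac, X3, w1, map_zero, add_zero, map_neg, LinearMap.neg_apply, map_smul,
          LinearMap.smul_apply]
      have h3 : K.br e2 A = 0 := by
        refine mult_one1 h he2 ht.h12 X3 c1 c2 ?_ ?_
        · rw [K.br_anti, inner_neg_left, K.ad_inv, K.br_self, inner_zero_right, neg_zero]
        · rw [K.br_anti, inner_neg_left, K.ad_inv, ht.h23, real_inner_smul_right, hAX, mul_zero,
            neg_zero]
      have h4 : K.br e3 A = 0 := by
        rw [h3, map_zero] at c1
        exact (smul_eq_zero.1 c1.symm).resolve_left two_ne_zero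
      exact ⟨by rw [K.br_anti, h3, neg_zero], by rw [K.br_anti, h4, neg_zero]⟩
    have zA := zz A B w1 w4
    have zB := zz B (-A) w2 (by rw [map_neg, w3])
    rcases hY n A B hA zA.1 zA.2 zB.1 zB.2 w3 w4 with h1 | h1 | h1 | h1
    · exact absurd h1 hn
    · subst h1
      exact Or.inr (Or.inl ⟨0, 1, by ring⟩)
    · subst h1
      exact Or.inr (Or.inl ⟨0, -1, by ring⟩)
    · exact Or.inr (Or.inr (Or.inr ⟨rfl, h1⟩))
  · exact Or.inr (Or.inl ⟨1, 0, by ring⟩)
  · -- `m = 2`
    have b1 : K.br X A = (2 : ℝ) • B := by rw [w1]; push_cast; module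
    have b2 : K.br X B = -((2 : ℝ) • A) := by rw [w2]; push_cast; module
    have hYA := two A B b1 b2
    have hB : B ≠ 0 := by
      rintro rfl
      rw [map_zero] at w2
      have := neg_eq_zero.1 w2.symm
      exact hA ((smul_eq_zero.1 this).resolve_left (by norm_num))
    rw [hYA] at w3
    have hn : n = 0 := by exact_mod_cast (smul_eq_zero.1 w3.symm).resolve_right hB
    exact Or.inr (Or.inr (Or.inl ⟨hn, Or.inl rfl, h.cor A B b1 b2⟩))

end abstract

variable {N : ℕ}

/-- the coroot of an `su(2)`-triple generates a closed one-parameter group -/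
theorem tri_closed (G : CGroup N) {e1 e2 e3 : lieAlg G} (h : Tri (gCalc G) e1 e2 e3) :
    NormedSpace.exp ((2 * Real.pi) • (e1 : Mat N)) = 1 := by
  set c : Mat N := NormedSpace.exp (Real.pi • (e1 : Mat N)) with hc
  have hcc : NormedSpace.exp ((2 * Real.pi) • (e1 : Mat N)) = c * c := by
    rw [hc, ← exp_mul_exp _ _ (Commute.refl _), ← add_smul]
    congr 2
    ring
  have X3 : (gCalc G).br e1 e3 = -((2 : ℝ) • e2) := by rw [(gCalc G).br_anti, h.h31]
  -- `c` commutes with `e2`
  have h1 : ad e1 Real.pi e2 = e2 := by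
    have := Ad_rot (gCalc G) e1 e2 e3 h.h12 X3 Real.pi
    rw [Real.cos_two_pi, Real.sin_two_pi, one_smul, zero_smul, add_zero] at this
    exact this
  have h2 : c * (e2 : Mat N) = e2 * c := by
    have h3 := congrArg (fun v : lieAlg G => (v : Mat N)) h1
    simp only [ad_coe] at h3
    calc c * (e2 : Mat N) = c * e2 * (NormedSpace.exp (-(Real.pi • (e1 : Mat N))) * c) := by
          rw [exp_neg_mul_exp, mul_one]
      _ = (c * e2 * NormedSpace.exp (-(Real.pi • (e1 : Mat N)))) * c := by
          simp only [mul_assoc]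
      _ = e2 * c := by rw [h3]
  -- conjugation by `exp (π/2 e2)` inverts `c`
  have h4 : ad e2 (Real.pi / 2) e1 = -e1 := by
    have := Ad_rot (gCalc G) e2 e1 (-e3) (by rw [(gCalc G).br_anti, h.h12, smul_neg])
      (by rw [map_neg, h.h23]) (Real.pi / 2)
    have e : 2 * (Real.pi / 2) = Real.pi := by ring
    rw [e, Real.cos_pi, Real.sin_pi, zero_smul, add_zero, neg_one_smul] at this
    exact this
  set g : Mat N := NormedSpace.exp ((Real.pi / 2) • (e2 : Mat N)) with hg
  have hgc : Commute c g := by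
    have h5 : Commute c (e2 : Mat N) := h2
    exact Commute.exp_right (h5.smul_right _)
  have h6 : g * c * g⁻¹ = c⁻¹ := by
    have h7 := congrArg (fun v : lieAlg G => (v : Mat N)) h4
    simp only [ad_coe] at h7
    rw [Matrix.exp_neg] at h7
    have h8 : g * (Real.pi • (e1 : Mat N)) * g⁻¹ = -(Real.pi • (e1 : Mat N)) := by
      rw [Matrix.mul_smul, Matrix.smul_mul, ← smul_neg]
      congr 1
    rw [hc, ← Matrix.exp_conj _ _ (Matrix.isUnit_exp _), h8, Matrix.exp_neg]
  have hgu : IsUnit g.det := (Matrix.isUnit_iff_isUnit_det _).1 (Matrix.isUnit_exp _)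
  have hcu : IsUnit c.det := (Matrix.isUnit_iff_isUnit_det _).1 (Matrix.isUnit_exp _)
  rw [← hgc.eq, mul_assoc, Matrix.mul_nonsing_inv _ hgu, mul_one] at h6
  rw [hcc]
  nth_rewrite 2 [h6]
  exact Matrix.mul_nonsing_inv _ hcu

/-- closed elements have integral squared length -/
theorem closed_norm {G : CGroup N} (A : lieAlg G)
    (h : NormedSpace.exp ((2 * Real.pi) • (A : Mat N)) = 1) : ∃ n : ℕ, ‖A‖ ^ 2 = n := by
  obtain ⟨U, a, hU⟩ := exists_cd (skew G A.2)
  have hUs : star (U : Mat N) * (U : Mat N) = 1 := Matrix.mem_unitaryGroup_iff'.1 U.2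
  have h1 : ∀ i, ∃ k : ℤ, a i = k := by
    intro i
    rw [hU, smul_cd, exp_cd] at h
    have h2 : diagonal (fun i => Complex.exp (((2 * Real.pi : ℝ) : ℂ) * (Complex.I * a i))) =
        (1 : Mat N) := by
      have h3 := congrArg (fun M : Mat N => star (U : Mat N) * M * (U : Mat N)) h
      simp only [cd] at h3
      rw [mul_one, hUs] at h3
      rw [← h3]
      calc _ = (star (U : Mat N) * U) * diagonal (fun i => Complex.exp (((2 * Real.pi : ℝ) : ℂ) *
            (Complex.I * a i))) * (star (U : Mat N) * U) := by rw [hUs, one_mul, mul_one]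
        _ = _ := by simp only [mul_assoc]
    have h4 := congrFun (congrFun h2 i) i
    rw [diagonal_apply_eq, one_apply_eq, Complex.exp_eq_one_iff] at h4
    obtain ⟨k, hk⟩ := h4
    refine ⟨k, ?_⟩
    have hpi : (Real.pi : ℂ) ≠ 0 := Complex.ofReal_ne_zero.2 Real.pi_ne_zero
    have h5 : (2 * Real.pi * Complex.I) * (a i : ℂ) = (2 * Real.pi * Complex.I) * (k : ℂ) := by
      push_cast at hk
      linear_combination hk
    have h6 := mul_left_cancel₀ (mul_ne_zero (mul_ne_zero two_ne_zero hpi) Complex.I_ne_zero) h5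
    exact_mod_cast h6
  choose k hk using h1
  refine ⟨∑ i, (k i).natAbs ^ 2, ?_⟩
  have h2 : ‖A‖ ^ 2 = ∑ i, (a i) ^ 2 := by
    rw [← ip_self]
    unfold ip
    have h3 : (A : Mat N) * A = cd U (fun i => -((a i ^ 2 : ℝ) : ℂ)) := by
      rw [hU]
      unfold cd
      calc _ = (U : Mat N) * (diagonal (fun i => Complex.I * (a i : ℂ)) *
            ((star (U : Mat N) * U) * diagonal (fun i => Complex.I * (a i : ℂ)))) *
            star (U : Mat N) := by simp only [mul_assoc]
        _ = _ := by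
          rw [hUs, one_mul, diagonal_mul_diagonal]
          congr 3
          funext i
          have := Complex.I_mul_I
          push_cast
          linear_combination (a i : ℂ) ^ 2 * this
    rw [h3]
    unfold cd
    rw [trace_mul_comm, ← mul_assoc, hUs, one_mul, trace_diagonal]
    rw [Complex.re_sum, ← Finset.sum_neg_distrib]
    refine Finset.sum_congr rfl fun i _ => ?_
    rw [Complex.neg_re, Complex.ofReal_re, neg_neg]
  rw [h2]
  push_cast
  refine Finset.sum_congr rfl fun i _ => ?_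
  rw [hk i, ← sq_abs]
  congr 1
  rw [Nat.cast_natAbs]
  push_cast
  rfl

theorem exists_short_group (G : CGroup N) {T : Submodule ℝ (lieAlg G)} (hT : MaxAb (gCalc G) T)
    (hne : ∃ A B : lieAlg G, (gCalc G).br A B ≠ 0) :
    ∃ e1 e2 e3, RTri (gCalc G) T e1 e2 e3 ∧ Short (gCalc G) e1 :=
  exists_short hT hne fun _ _ _ h => closed_norm _ (tri_closed G h)

end Pool.Agent.TH109.CG3
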