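import Pool.Agent.TH109.CG2.Main2

/-!
Maximal abelian subalgebras, roots, and short coroots.
-/

open Module Pool.Agent.H842R4 Pool.Agent.H842R4.Calc Pool.Agent.TH109.CG2

noncomputable section

namespace Pool.Agent.TH109.CG3

variable {P 𝔤 : Type} [NormedAddCommGroup 𝔤] [InnerProductSpace ℝ 𝔤]

/-- commuting operators have a common weight plane in every invariant subspace -/
theorem exists_root (K : Calc P 𝔤) [FiniteDimensional ℝ 𝔤] (T : Submodule ℝ 𝔤)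
    (hT : ∀ H ∈ T, ∀ H' ∈ T, K.br H H' = 0) (W : Submodule ℝ 𝔤) (hW : W ≠ ⊥)
    (hWT : ∀ H ∈ T, ∀ u ∈ W, K.br H u ∈ W) :
    ∃ z ∈ W, z ≠ 0 ∧ ((∀ H ∈ T, K.br H z = 0) ∨
      ∃ w ∈ W, ∃ β : 𝔤 → ℝ, ‖z‖ = 1 ∧ ‖w‖ = 1 ∧ (∀ H ∈ T, K.br H z = β H • w) ∧
        (∀ H ∈ T, K.br H w = -(β H • z)) ∧ ∃ H ∈ T, β H ≠ 0) := by
  have hnt : Nontrivial W := Submodule.nontrivial_iff_ne_bot.2 hW
  have hcomm : ∀ H ∈ T, ∀ H' ∈ T, ∀ u, K.br H (K.br H' u) = K.br H' (K.br H u) := by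
    intro H hH H' hH' u
    rw [K.jac, hT H hH H' hH', map_zero, LinearMap.zero_apply, zero_add]
  let ad : T → (W →ₗ[ℝ] W) := fun H => (K.br H).restrict (hWT H H.2)
  let S : T × T → (W →ₗ[ℝ] W) := fun x => ad x.1 ∘ₗ ad x.2
  have hS : ∀ x, (S x).IsSymmetric := by
    rintro ⟨H, H'⟩ u v
    show inner ℝ (K.br H (K.br H' u)) (v : 𝔤) = inner ℝ (u : 𝔤) (K.br H (K.br H' v))
    rw [br_skew, br_skew, neg_neg, hcomm H' H'.2 H H.2]
  have hC : Pairwise (Function.onFun Commute S) := by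
    rintro ⟨a, b⟩ ⟨c, d⟩ _
    show S (a, b) * S (c, d) = S (c, d) * S (a, b)
    refine LinearMap.ext fun u => Subtype.ext ?_
    show K.br a (K.br b (K.br c (K.br d u))) = K.br c (K.br d (K.br a (K.br b u)))
    rw [hcomm b b.2 c c.2, hcomm a a.2 c c.2, hcomm b b.2 d d.2, hcomm a a.2 d d.2]
  have htop := LinearMap.IsSymmetric.iSup_iInf_eq_top_of_commute hS hC
  have hne : ∃ χ : T × T → ℝ, (⨅ i, End.eigenspace (S i) (χ i)) ≠ ⊥ := by
    by_contra hcon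
    push Not at hcon
    rw [iSup_congr hcon, iSup_bot] at htop
    exact bot_ne_top htop
  obtain ⟨χ, hχ⟩ := hne
  obtain ⟨x, hx, hx0⟩ := (Submodule.ne_bot_iff _).1 hχ
  have hx' : ∀ H H' : T, K.br H (K.br H' x) = χ (H, H') • (x : 𝔤) := fun H H' =>
    congrArg Subtype.val (End.mem_eigenspace_iff.1 ((Submodule.mem_iInf _).1 hx (H, H')))
  have hx0' : (x : 𝔤) ≠ 0 := fun h => hx0 (Subtype.ext h)
  have hn : ‖(x : 𝔤)‖ ≠ 0 := norm_ne_zero_iff.2 hx0'
  by_cases h0 : ∀ H ∈ T, K.br H x = 0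
  · exact ⟨x, x.2, hx0', Or.inl h0⟩
  push Not at h0
  obtain ⟨H0, hH0, hne0⟩ := h0
  set z : 𝔤 := ‖(x : 𝔤)‖⁻¹ • (x : 𝔤) with hz
  have hz1 : ‖z‖ = 1 := by rw [hz, norm_smul, norm_inv, norm_norm, inv_mul_cancel₀ hn]
  have hzz : inner ℝ z z = (1 : ℝ) := by rw [real_inner_self_eq_norm_sq, hz1]; norm_num
  have hzχ : ∀ H H' : T, K.br H (K.br H' z) = χ (H, H') • z := by
    intro H H'
    rw [hz, map_smul, map_smul, hx', smul_comm]
  have hz0 : K.br H0 z ≠ 0 := by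
    intro h
    rw [hz, map_smul] at h
    exact hne0 ((smul_eq_zero.1 h).resolve_left (inv_ne_zero hn))
  set n : ℝ := ‖K.br H0 z‖ with hn'
  have hn0 : n ≠ 0 := norm_ne_zero_iff.2 hz0
  set H0' : T := ⟨H0, hH0⟩ with hH0'
  have ha : χ (H0', H0') = -n ^ 2 := by
    have h1 := br_skew K H0 z (K.br H0 z)
    have h2 : K.br H0 (K.br H0 z) = χ (H0', H0') • z := hzχ H0' H0'
    rw [h2, real_inner_smul_right, hzz, real_inner_self_eq_norm_sq] at h1
    linarith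
  have ha0 : χ (H0', H0') ≠ 0 := by rw [ha]; exact neg_ne_zero.2 (pow_ne_zero _ hn0)
  have hzW : z ∈ W := W.smul_mem _ x.2
  refine ⟨z, hzW, ?_, Or.inr ?_⟩
  · intro h
    rw [h, norm_zero] at hz1
    exact zero_ne_one hz1
  classical
  have key : ∀ (H : 𝔤) (hH : H ∈ T), K.br H z = ((-n ^ 2)⁻¹ * χ (H0', ⟨H, hH⟩)) • K.br H0 z := by
    intro H hH
    have h8 : χ (H0', H0') • K.br H z = χ (H0', ⟨H, hH⟩) • K.br H0 z := by
      have e1 : K.br H (K.br H0 (K.br H0 z)) = χ (H0', H0') • K.br H z := by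
        have : K.br H0 (K.br H0 z) = χ (H0', H0') • z := hzχ H0' H0'
        rw [this, map_smul]
      have e2 : K.br H0 (K.br H0 (K.br H z)) = χ (H0', ⟨H, hH⟩) • K.br H0 z := by
        have : K.br H0 (K.br H z) = χ (H0', ⟨H, hH⟩) • z := hzχ H0' ⟨H, hH⟩
        rw [this, map_smul]
      rw [← e1, ← e2, hcomm H hH H0 hH0, hcomm H hH H0 hH0]
    rw [mul_smul, ← h8, smul_smul, ha, inv_mul_cancel₀ (by rw [← ha]; exact ha0), one_smul]
  have hsymm : ∀ (H : 𝔤) (hH : H ∈ T), χ (⟨H, hH⟩, H0') = χ (H0', ⟨H, hH⟩) := by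
    intro H hH
    have h1 : K.br H (K.br H0 z) = χ (⟨H, hH⟩, H0') • z := hzχ ⟨H, hH⟩ H0'
    have h2 : K.br H0 (K.br H z) = χ (H0', ⟨H, hH⟩) • z := hzχ H0' ⟨H, hH⟩
    rw [hcomm H hH H0 hH0, h2] at h1
    have h3 := congrArg (fun v => inner ℝ v z) h1
    simp only [real_inner_smul_left, hzz, mul_one] at h3
    exact h3.symm
  refine ⟨n⁻¹ • K.br H0 z, W.smul_mem _ (hWT H0 hH0 z hzW),
    fun H => if hH : H ∈ T then (-n ^ 2)⁻¹ * χ (H0', ⟨H, hH⟩) * n else 0, hz1, ?_, ?_, ?_, H0, hH0,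
    ?_⟩
  · rw [norm_smul, norm_inv, ← hn', Real.norm_of_nonneg (norm_nonneg _), inv_mul_cancel₀ hn0]
  · intro H hH
    simp only [dif_pos hH]
    rw [smul_smul, mul_assoc, mul_inv_cancel₀ hn0, mul_one]
    exact key H hH
  · intro H hH
    simp only [dif_pos hH]
    have h1 : K.br H (K.br H0 z) = χ (⟨H, hH⟩, H0') • z := hzχ ⟨H, hH⟩ H0'
    rw [map_smul, h1, hsymm, smul_smul, ← neg_smul]
    congr 1
    field_simp
  · simp only [dif_pos hH0]
    exact mul_ne_zero (mul_ne_zero (inv_ne_zero (neg_ne_zero.2 (pow_ne_zero _ hn0))) ha0) hn0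

/-- maximal abelian subspaces -/
structure MaxAb (K : Calc P 𝔤) (T : Submodule ℝ 𝔤) : Prop where
  ab : ∀ H ∈ T, ∀ H' ∈ T, K.br H H' = 0
  max : ∀ C, (∀ H ∈ T, K.br H C = 0) → C ∈ T

theorem exists_maxAb (K : Calc P 𝔤) [FiniteDimensional ℝ 𝔤] (T0 : Submodule ℝ 𝔤)
    (h0 : ∀ H ∈ T0, ∀ H' ∈ T0, K.br H H' = 0) : ∃ T, T0 ≤ T ∧ MaxAb K T := by
  obtain ⟨T, ⟨hle, hab⟩, hmax⟩ := WellFounded.has_min (wellFounded_gt (α := Submodule ℝ 𝔤))
    {T | T0 ≤ T ∧ ∀ H ∈ T, ∀ H' ∈ T, K.br H H' = 0} ⟨T0, le_rfl, h0⟩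
  refine ⟨T, hle, hab, fun C hC => ?_⟩
  have hmem : (T ⊔ Submodule.span ℝ {C}) ∈
      {T | T0 ≤ T ∧ ∀ H ∈ T, ∀ H' ∈ T, K.br H H' = 0} := by
    refine ⟨hle.trans le_sup_left, ?_⟩
    intro H hH H' hH'
    obtain ⟨a, ha, c, hc, rfl⟩ := Submodule.mem_sup.1 hH
    obtain ⟨a', ha', c', hc', rfl⟩ := Submodule.mem_sup.1 hH'
    obtain ⟨s, rfl⟩ := Submodule.mem_span_singleton.1 hc
    obtain ⟨s', rfl⟩ := Submodule.mem_span_singleton.1 hc'
    have h1 : K.br C a' = 0 := by rw [K.br_anti, hC a' ha', neg_zero]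
    simp only [map_add, LinearMap.add_apply, map_smul, LinearMap.smul_apply, hab a ha a' ha',
      hC a ha, h1, K.br_self, smul_zero, add_zero]
  by_contra hCT
  refine hmax _ hmem ?_
  refine lt_of_le_of_ne le_sup_left fun heq => hCT ?_
  rw [heq]
  exact Submodule.mem_sup_right (Submodule.mem_span_singleton_self C)

variable {K : Calc P 𝔤}

/-- a triple whose first element is the coroot of a root of `T` -/
structure RTri (K : Calc P 𝔤) (T : Submodule ℝ 𝔤) (e1 e2 e3 : 𝔤) : Prop where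
  tri : Tri K e1 e2 e3
  mem : e1 ∈ T
  ne : e1 ≠ 0
  rt : ∀ H ∈ T, inner ℝ H e1 = (0 : ℝ) → K.br H e2 = 0 ∧ K.br H e3 = 0

/-- the coroot triple of a root -/
theorem tri_of_root {T : Submodule ℝ 𝔤} (hT : MaxAb K T) {z w : 𝔤} {β : 𝔤 → ℝ} (hz : ‖z‖ = 1)
    (h1 : ∀ H ∈ T, K.br H z = β H • w) (h2 : ∀ H ∈ T, K.br H w = -(β H • z))
    (h3 : ∃ H ∈ T, β H ≠ 0) :
    ∃ b ∈ T, b ≠ 0 ∧ (∀ H ∈ T, β H = inner ℝ b H) ∧
      RTri K T ((2 / ‖b‖ ^ 2) • b) ((2 / ‖b‖) • z) ((2 / ‖b‖) • w) := by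
  have hzz : inner ℝ z z = (1 : ℝ) := by rw [real_inner_self_eq_norm_sq, hz]; norm_num
  have hb : K.br z w ∈ T := by
    refine hT.max _ fun H hH => ?_
    rw [K.jac, h1 H hH, h2 H hH, map_smul, LinearMap.smul_apply, K.br_self, map_neg, map_smul,
      K.br_self, smul_zero, neg_zero, add_zero]
  have hβ : ∀ H ∈ T, β H = inner ℝ (K.br z w) H := by
    intro H hH
    rw [K.ad_inv, K.br_anti w H, h2 H hH, neg_neg, real_inner_smul_right, hzz, mul_one]
  have hb0 : K.br z w ≠ 0 := by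
    intro h
    obtain ⟨H, hH, hne⟩ := h3
    rw [hβ H hH, h, inner_zero_left] at hne
    exact hne rfl
  set b := K.br z w with hbd
  have hn : ‖b‖ ≠ 0 := norm_ne_zero_iff.2 hb0
  have hβb : β b = ‖b‖ ^ 2 := by rw [hβ b hb, real_inner_self_eq_norm_sq]
  refine ⟨b, hb, hb0, hβ, ⟨⟨?_, ?_, ?_⟩, T.smul_mem _ hb, ?_, ?_⟩⟩
  · simp only [map_smul, LinearMap.smul_apply]
    rw [h1 b hb, hβb, smul_smul, smul_smul, smul_smul]
    congr 1
    field_simp
  · simp only [map_smul, LinearMap.smul_apply]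
    rw [← hbd, smul_smul, smul_smul]
    congr 1
    field_simp
  · rw [K.br_anti]
    simp only [map_smul, LinearMap.smul_apply]
    rw [h2 b hb, hβb, smul_neg, smul_neg, neg_neg, smul_smul, smul_smul, smul_smul]
    congr 1
    field_simp
  · exact smul_ne_zero (by positivity) hb0
  · intro H hH hi
    rw [real_inner_smul_right] at hi
    have h4 : inner ℝ H b = (0 : ℝ) := (mul_eq_zero.1 hi).resolve_left (by positivity)
    have h5 : β H = 0 := by rw [hβ H hH, real_inner_comm]; exact h4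
    rw [map_smul, map_smul, h1 H hH, h2 H hH, h5]
    simp

theorem exists_rtri [FiniteDimensional ℝ 𝔤] {T : Submodule ℝ 𝔤} (hT : MaxAb K T)
    (hne : ∃ A B, K.br A B ≠ 0) : ∃ e1 e2 e3, RTri K T e1 e2 e3 := by
  have hTtop : Tᗮ ≠ ⊥ := by
    intro h
    rw [Submodule.orthogonal_eq_bot_iff] at h
    obtain ⟨A, B, hAB⟩ := hne
    exact hAB (hT.ab A (by rw [h]; trivial) B (by rw [h]; trivial))
  obtain ⟨z, hz, hz0, h | ⟨w, hw, β, h1, h2, h3, h4, h5⟩⟩ := exists_root K T hT.ab Tᗮ hTtop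
    (fun H hH u hu => by
      rw [Submodule.mem_orthogonal] at hu ⊢
      intro H' hH'
      have h1 := br_skew K H H' u
      rw [hT.ab H hH H' hH', inner_zero_left] at h1
      linarith)
  · exfalso
    have h1 : z ∈ T := hT.max z h
    have h2 := (Submodule.mem_orthogonal _ _).1 hz z h1
    exact hz0 (inner_self_eq_zero.1 h2)
  · obtain ⟨b, _, _, _, h6⟩ := tri_of_root hT h1 h3 h4 h5
    exact ⟨_, _, _, h6⟩

/-- properties of the shortest coroot -/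
structure Short (K : Calc P 𝔤) (X : 𝔤) : Prop where
  le : ∀ (m : ℤ) (A B : 𝔤), A ≠ 0 → K.br X A = (m : ℝ) • B → K.br X B = -((m : ℝ) • A) →
    -2 ≤ m ∧ m ≤ 2
  cor : ∀ A B : 𝔤, K.br X A = (2 : ℝ) • B → K.br X B = -((2 : ℝ) • A) → ∃ c : ℝ, K.br A B = c • X

theorem exists_short [FiniteDimensional ℝ 𝔤] {T : Submodule ℝ 𝔤} (hT : MaxAb K T)
    (hne : ∃ A B, K.br A B ≠ 0)
    (hN : ∀ e1 e2 e3, Tri K e1 e2 e3 → ∃ n : ℕ, ‖e1‖ ^ 2 = n) :
    ∃ e1 e2 e3, RTri K T e1 e2 e3 ∧ Short K e1 := by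
  classical
  have hex : ∃ n : ℕ, ∃ e1 e2 e3, RTri K T e1 e2 e3 ∧ ‖e1‖ ^ 2 = n := by
    obtain ⟨e1, e2, e3, h⟩ := exists_rtri hT hne
    obtain ⟨n, hn⟩ := hN e1 e2 e3 h.tri
    exact ⟨n, e1, e2, e3, h, hn⟩
  obtain ⟨X, e2, e3, hX, hXn⟩ := Nat.find_spec hex
  have hmin : ∀ e1 e2 e3, RTri K T e1 e2 e3 → ‖X‖ ^ 2 ≤ ‖e1‖ ^ 2 := by
    intro f1 f2 f3 hf
    obtain ⟨n, hn⟩ := hN f1 f2 f3 hf.tri
    rw [hXn, hn]
    exact_mod_cast Nat.find_min' hex ⟨f1, f2, f3, hf, hn⟩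
  have hX0 : ‖X‖ ≠ 0 := norm_ne_zero_iff.2 hX.ne
  have hXpos : 0 < ‖X‖ ^ 2 := by positivity
  have hcomm : ∀ H ∈ T, ∀ H' ∈ T, ∀ u, K.br H (K.br H' u) = K.br H' (K.br H u) := by
    intro H hH H' hH' u
    rw [K.jac, hT.ab H hH H' hH', map_zero, LinearMap.zero_apply, zero_add]
  -- the key estimate
  have key : ∀ (μ : ℝ) (W : Submodule ℝ 𝔤), μ ≠ 0 → W ≠ ⊥ → (∀ H ∈ T, ∀ u ∈ W, K.br H u ∈ W) →
      (∀ u ∈ W, K.br X (K.br X u) = -(μ ^ 2 • u)) →
      μ ^ 2 ≤ 4 ∧ (μ ^ 2 = 4 → ∃ z ∈ W, z ≠ 0 ∧ ∀ H ∈ T,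
        K.br H z = (inner ℝ X H / ‖X‖ ^ 2) • K.br X z) := by
    intro μ W hμ hW hinv hsq
    obtain ⟨z, hz, hz0, h | ⟨w, hw, β, h1, h2, h3, h4, h5⟩⟩ := exists_root K T hT.ab W hW hinv
    · exfalso
      have h6 := hsq z hz
      rw [h X hX.mem, map_zero] at h6
      have h7 := neg_eq_zero.1 h6.symm
      rcases smul_eq_zero.1 h7 with h8 | h8
      · exact hμ (pow_eq_zero_iff two_ne_zero |>.1 h8)
      · exact hz0 h8
    obtain ⟨b, hb, hb0, hβ, hR⟩ := tri_of_root hT h1 h3 h4 h5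
    have hbn : ‖b‖ ≠ 0 := norm_ne_zero_iff.2 hb0
    have hle := hmin _ _ _ hR
    have e1 : ‖(2 / ‖b‖ ^ 2) • b‖ ^ 2 = 4 / ‖b‖ ^ 2 := by
      rw [norm_smul, Real.norm_of_nonneg (by positivity)]
      field_simp
      ring
    rw [e1] at hle
    have hle' : ‖X‖ ^ 2 * ‖b‖ ^ 2 ≤ 4 := by
      rwa [le_div_iff₀ (by positivity)] at hle
    have hβX : (inner ℝ b X : ℝ) ^ 2 = μ ^ 2 := by
      have h6 := hsq z hz
      rw [h3 X hX.mem, map_smul, h4 X hX.mem, smul_neg, smul_smul] at h6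
      have h7 := congrArg (fun v => inner ℝ v z) (neg_injective h6)
      simp only [real_inner_smul_left] at h7
      have h8 : (inner ℝ z z : ℝ) ≠ 0 := inner_self_ne_zero.2 hz0
      have h9 := mul_right_cancel₀ h8 h7
      rw [← h9, hβ X hX.mem]
      ring
    have hCS : (inner ℝ b X : ℝ) ^ 2 ≤ ‖b‖ ^ 2 * ‖X‖ ^ 2 := by
      have := abs_real_inner_le_norm b X
      rw [← mul_pow, ← sq_abs (inner ℝ b X)]
      exact pow_le_pow_left₀ (abs_nonneg _) this 2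
    refine ⟨by nlinarith, fun hμ4 => ⟨z, hz, hz0, fun H hH => ?_⟩⟩
    -- equality in Cauchy–Schwarz
    have hbX : b = (inner ℝ b X / ‖X‖ ^ 2) • X := by
      have h6 : inner ℝ (b - (inner ℝ b X / ‖X‖ ^ 2) • X) (b - (inner ℝ b X / ‖X‖ ^ 2) • X) =
          (0 : ℝ) := by
        have hXb : (inner ℝ X b : ℝ) = inner ℝ b X := real_inner_comm _ _
        have hn2 : ‖b‖ ^ 2 * ‖X‖ ^ 2 = 4 := by nlinarith
        have e : inner ℝ (b - (inner ℝ b X / ‖X‖ ^ 2) • X) (b - (inner ℝ b X / ‖X‖ ^ 2) • X) =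
            ‖b‖ ^ 2 - (inner ℝ b X : ℝ) ^ 2 / ‖X‖ ^ 2 := by
          rw [inner_sub_left, inner_sub_right, inner_sub_right, real_inner_smul_left,
            real_inner_smul_left, real_inner_smul_right, real_inner_smul_right,
            real_inner_self_eq_norm_sq, real_inner_self_eq_norm_sq, hXb]
          field_simp
          ring
        rw [e, hβX, hμ4, ← hn2]
        field_simp
        ring
      exact sub_eq_zero.1 (inner_self_eq_zero.1 h6)
    rw [h3 H hH, h3 X hX.mem, smul_smul]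
    congr 1
    rw [hβ H hH, hβ X hX.mem]
    conv_lhs => rw [hbX]
    rw [real_inner_smul_left]
    ring
  -- eigenspaces
  let V : ℝ → Submodule ℝ 𝔤 := fun μ =>
    { carrier := {u | K.br X (K.br X u) = -(μ ^ 2 • u)}
      add_mem' := by
        intro a b ha hb
        simp only [Set.mem_ofPred_eq] at ha hb ⊢
        rw [map_add, map_add, ha, hb, smul_add, neg_add]
      zero_mem' := by simp
      smul_mem' := by
        intro c a ha
        simp only [Set.mem_ofPred_eq] at ha ⊢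
        rw [map_smul, map_smul, ha, smul_neg, smul_comm] }
  have hVinv : ∀ μ, ∀ H ∈ T, ∀ u ∈ V μ, K.br H u ∈ V μ := by
    intro μ H hH u hu
    show K.br X (K.br X (K.br H u)) = -(μ ^ 2 • K.br H u)
    have hu' : K.br X (K.br X u) = -(μ ^ 2 • u) := hu
    rw [hcomm X hX.mem H hH, hcomm X hX.mem H hH, hu', map_neg, map_smul]
  have hVmem : ∀ (μ : ℝ) (A B : 𝔤), K.br X A = μ • B → K.br X B = -(μ • A) → A ∈ V μ := by
    intro μ A B h1 h2
    show K.br X (K.br X A) = -(μ ^ 2 • A)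
    rw [h1, map_smul, h2, smul_neg, smul_smul]
    congr 2
    ring
  refine ⟨X, e2, e3, hX, ⟨?_, ?_⟩⟩
  · intro m A B hA h1 h2
    by_cases hm : m = 0
    · subst hm; norm_num
    have hm' : (m : ℝ) ≠ 0 := by exact_mod_cast hm
    have hV : V m ≠ ⊥ := by
      rw [Submodule.ne_bot_iff]
      exact ⟨A, hVmem m A B h1 h2, hA⟩
    have h3 := (key m (V m) hm' hV (hVinv m) (fun u hu => hu)).1
    have h4 : m ^ 2 ≤ 4 := by exact_mod_cast h3
    constructor <;> nlinarith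
  · intro A B h1 h2
    -- the subspace on which `T` acts through the coroot
    let U : Submodule ℝ 𝔤 :=
      { carrier := {u | ∀ H ∈ T, K.br H u = (inner ℝ X H / ‖X‖ ^ 2) • K.br X u}
        add_mem' := by
          intro a b ha hb H hH
          rw [map_add, map_add, ha H hH, hb H hH, smul_add]
        zero_mem' := by intro H hH; simp
        smul_mem' := by
          intro c a ha H hH
          rw [map_smul, map_smul, ha H hH, smul_comm] }
    have hUinv : ∀ H ∈ T, ∀ u ∈ U, K.br H u ∈ U := by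
      intro H hH u hu H' hH'
      have hu' : K.br H' u = (inner ℝ X H' / ‖X‖ ^ 2) • K.br X u := hu H' hH'
      rw [hcomm H' hH' H hH, hu', map_smul, hcomm H hH X hX.mem]
    have hW : V 2 ⊓ (U ⊓ V 2)ᗮ = ⊥ := by
      by_contra hW
      obtain ⟨z, hz, hz0, hz'⟩ := (key 2 (V 2 ⊓ (U ⊓ V 2)ᗮ) two_ne_zero hW (by
        intro H hH u hu
        refine ⟨hVinv 2 H hH u hu.1, ?_⟩
        rw [SetLike.mem_coe, Submodule.mem_orthogonal]
        intro v hv
        have h4 := (Submodule.mem_orthogonal _ _).1 hu.2 (K.br H v)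
          ⟨hUinv H hH v hv.1, hVinv 2 H hH v hv.2⟩
        have h5 := br_skew K H v u
        rw [h4] at h5
        linarith) (fun u hu => hu.1)).2 (by norm_num)
      have h4 := (Submodule.mem_orthogonal _ _).1 hz.2 z ⟨hz', hz.1⟩
      exact hz0 (inner_self_eq_zero.1 h4)
    have hVU : V 2 ≤ U := by
      intro u hu
      -- orthogonal decomposition
      have h4 : u - (U ⊓ V 2).starProjection u ∈ V 2 ⊓ (U ⊓ V 2)ᗮ := by
        refine ⟨(V 2).sub_mem hu ?_, Submodule.sub_starProjection_mem_orthogonal u⟩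
        exact ((U ⊓ V 2).starProjection_apply_mem u).2
      rw [hW, Submodule.mem_bot] at h4
      have h5 : u = (U ⊓ V 2).starProjection u := sub_eq_zero.1 h4
      rw [h5]
      exact ((U ⊓ V 2).starProjection_apply_mem u).1
    have hA : A ∈ U := hVU (hVmem 2 A B h1 h2)
    have hB : B ∈ U := hVU (hVmem 2 B (-A) (by rw [h2, smul_neg]) (by rw [map_neg, h1]))
    have hAB : K.br A B ∈ T := by
      refine hT.max _ fun H hH => ?_
      rw [K.jac, hA H hH, hB H hH, h1, h2, map_smul, LinearMap.smul_apply, map_smul,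
        LinearMap.smul_apply, K.br_self, map_smul, map_neg, map_smul, K.br_self]
      simp
    set c : ℝ := 2 * inner ℝ A A / ‖X‖ ^ 2 with hc
    have hdiff : K.br A B - c • X ∈ T := T.sub_mem hAB (T.smul_mem _ hX.mem)
    have horth : ∀ H ∈ T, inner ℝ (K.br A B - c • X) H = (0 : ℝ) := by
      intro H hH
      rw [inner_sub_left, K.ad_inv, K.br_anti B H, hB H hH, h2, real_inner_smul_left, smul_neg,
        neg_neg, real_inner_smul_right, real_inner_smul_right, hc]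
      ring
    exact ⟨c, sub_eq_zero.1 (inner_self_eq_zero.1 (horth _ hdiff))⟩

end Pool.Agent.TH109.CG3
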